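import Pool.Agent.LPK.Stmts

/-!
# Row FTM of the table lpk (transform of a monomial)
-/

set_option autoImplicit false

open MeasureTheory Filter Topology
open scoped RealInnerProductSpace

namespace Pool.Agent.LPK.H1

/-- continuous and of polynomial growth -/
def Nice {n : ℕ} (f : V n → ℝ) : Prop :=
  Continuous f ∧ ∃ (C : ℝ) (m : ℕ), ∀ x, |f x| ≤ C * (1 + ‖x‖ ^ 2) ^ m

theorem nice_mul {n : ℕ} {f : V n → ℝ} (hf : Nice f) (g : V n → ℝ) (hg : Continuous g) (D : ℝ)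
    (hD : ∀ x, |g x| ≤ D * (1 + ‖x‖ ^ 2)) : Nice (fun x => g x * f x) := by
  obtain ⟨h1, C, m, h2⟩ := hf
  refine ⟨hg.mul h1, D * C, m + 1, fun x => ?_⟩
  rw [abs_mul]
  have := mul_le_mul (hD x) (h2 x) (abs_nonneg _) ((abs_nonneg _).trans (hD x))
  calc |g x| * |f x| ≤ D * (1 + ‖x‖ ^ 2) * (C * (1 + ‖x‖ ^ 2) ^ m) := this
    _ = D * C * (1 + ‖x‖ ^ 2) ^ (m + 1) := by ring

theorem nice_in {n : ℕ} {f : V n → ℝ} (hf : Nice f) (v : V n) :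
    Nice (fun x => ⟪x, v⟫ ^ 2 * f x) := by
  refine nice_mul hf (fun x => ⟪x, v⟫ ^ 2) (by fun_prop) (‖v‖ ^ 2) ?_
  intro x
  rw [abs_of_nonneg (sq_nonneg _)]
  have h := abs_real_inner_le_norm x v
  have h2 : ⟪x, v⟫ ^ 2 ≤ (‖x‖ * ‖v‖) ^ 2 := by
    rw [← sq_abs]
    exact pow_le_pow_left₀ (abs_nonneg _) h 2
  nlinarith [sq_nonneg ‖v‖]

theorem nice_sq {n : ℕ} {f : V n → ℝ} (hf : Nice f) : Nice (fun x => ‖x‖ ^ 2 * f x) := by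
  refine nice_mul hf (fun x => ‖x‖ ^ 2) (by fun_prop) 1 ?_
  intro x
  rw [abs_of_nonneg (sq_nonneg _)]
  linarith

theorem cont_G {n : ℕ} : Continuous (fun x : V n => G x) := by
  unfold G
  fun_prop

theorem nice_int (h3 : JddStmt) {n : ℕ} {f : V n → ℝ} (hf : Nice f) (w : V n) :
    Integrable (fun x => f x * G x * Real.cos ⟪x, w⟫) := by
  obtain ⟨hc, C, m, hb⟩ := hf
  obtain ⟨h, -⟩ := h3 n f C m hc hb
  refine h.mono ((hc.mul cont_G).mul (by fun_prop)).aestronglyMeasurable ?_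
  refine Filter.Eventually.of_forall fun x => ?_
  rw [norm_mul]
  have : ‖Real.cos ⟪x, w⟫‖ ≤ 1 := by
    rw [Real.norm_eq_abs]; exact Real.abs_cos_le_one _
  calc ‖f x * G x‖ * ‖Real.cos ⟪x, w⟫‖ ≤ ‖f x * G x‖ * 1 :=
        mul_le_mul_of_nonneg_left this (norm_nonneg _)
    _ = ‖f x * G x‖ := mul_one _

/-- the transform of `f G` is `q G` -/
def St (n : ℕ) (y : V n) (f : V n → ℝ) (q : P3) : Prop :=
  Nice f ∧ ∀ w : V n, ∫ x, f x * G x * Real.cos ⟪x, w⟫ =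
    (2 * Real.pi) ^ ((n : ℝ) / 2) * (e3 q (‖w‖ ^ 2) (‖y‖ ^ 2) ⟪w, y⟫ * G w)

/-- the second derivative -/
noncomputable def Q2 {n : ℕ} (q : P3) (y v w : V n) : ℝ :=
  (4 * ⟪w, v⟫ ^ 2 * e3 (dA (dA q)) (‖w‖ ^ 2) (‖y‖ ^ 2) ⟪w, y⟫ +
    4 * ⟪w, v⟫ * ⟪y, v⟫ * e3 (dA (dH q)) (‖w‖ ^ 2) (‖y‖ ^ 2) ⟪w, y⟫ +
    ⟪y, v⟫ ^ 2 * e3 (dH (dH q)) (‖w‖ ^ 2) (‖y‖ ^ 2) ⟪w, y⟫ +
    2 * ‖v‖ ^ 2 * e3 (dA q) (‖w‖ ^ 2) (‖y‖ ^ 2) ⟪w, y⟫ -
    2 * ⟪w, v⟫ * (2 * ⟪w, v⟫ * e3 (dA q) (‖w‖ ^ 2) (‖y‖ ^ 2) ⟪w, y⟫ +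
      ⟪y, v⟫ * e3 (dH q) (‖w‖ ^ 2) (‖y‖ ^ 2) ⟪w, y⟫) +
    (⟪w, v⟫ ^ 2 - ‖v‖ ^ 2) * e3 q (‖w‖ ^ 2) (‖y‖ ^ 2) ⟪w, y⟫) * G w

theorem step (h3 : JddStmt) (h4 : QddStmt) {n : ℕ} {y : V n} {f : V n → ℝ} {q : P3}
    (h : St n y f q) (v w : V n) :
    ∫ x, ⟪x, v⟫ ^ 2 * f x * G x * Real.cos ⟪x, w⟫ =
      -((2 * Real.pi) ^ ((n : ℝ) / 2) * Q2 q y v w) := by
  obtain ⟨⟨hc, C, m, hb⟩, hw⟩ := h
  obtain ⟨-, hJ⟩ := h3 n f C m hc hb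
  obtain ⟨J', hJ1, hJ2⟩ := hJ v w
  obtain ⟨F', hF1, hF2⟩ := h4 n q y v w
  have e : (fun t : ℝ => ∫ x, f x * G x * Real.cos ⟪x, w + t • v⟫) =
      fun t : ℝ => (2 * Real.pi) ^ ((n : ℝ) / 2) *
        (e3 q (‖w + t • v‖ ^ 2) (‖y‖ ^ 2) ⟪w + t • v, y⟫ * G (w + t • v)) :=
    funext fun t => hw (w + t • v)
  have e' : J' = fun t => (2 * Real.pi) ^ ((n : ℝ) / 2) * F' t := by
    funext t
    have a := hJ1 t
    rw [e] at a
    exact a.unique ((hF1 t).const_mul _)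
  have a := hJ2 0
  rw [e'] at a
  have b := a.unique (hF2.const_mul _)
  rw [zero_smul, add_zero] at b
  unfold Q2
  linarith

theorem e_dA (h1 : EvaStmt) (q : P3) (A B H : ℝ) : e3 (dA (opD q)) A B H =
    2 * H * e3 (dA (dA q)) A B H + B * e3 (dA (dH q)) A B H - H * e3 (dA q) A B H := by
  obtain ⟨ap, sc', m, d, -, -⟩ := h1
  have e : (fun x => e3 (opD q) x B H) =
      fun x => 2 * H * e3 (dA q) x B H + B * e3 (dH q) x B H - H * e3 q x B H := by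
    funext x
    unfold opD
    rw [ap, ap, sc', (m _ _ _ _).2.2, (m _ _ _ _).2.1, sc', (m _ _ _ _).2.2]
    push_cast
    ring
  have a := (d (opD q) A B H).1
  rw [e] at a
  exact a.unique ((((d (dA q) A B H).1.const_mul (2 * H)).add ((d (dH q) A B H).1.const_mul B)).sub
    ((d q A B H).1.const_mul H))

theorem e_dH (h1 : EvaStmt) (q : P3) (A B H : ℝ) : e3 (dH (opD q)) A B H =
    2 * e3 (dA q) A B H + 2 * H * e3 (dH (dA q)) A B H + B * e3 (dH (dH q)) A B H -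
      (e3 q A B H + H * e3 (dH q) A B H) := by
  obtain ⟨ap, sc', m, d, -, -⟩ := h1
  have e : (fun x => e3 (opD q) A B x) =
      fun x => 2 * (x * e3 (dA q) A B x) + B * e3 (dH q) A B x - x * e3 q A B x := by
    funext x
    unfold opD
    rw [ap, ap, sc', (m _ _ _ _).2.2, (m _ _ _ _).2.1, sc', (m _ _ _ _).2.2]
    push_cast
    ring
  have a := (d (opD q) A B H).2
  rw [e] at a
  have b := ((((hasDerivAt_id H).mul (d (dA q) A B H).2).const_mul 2).add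
    ((d (dH q) A B H).2.const_mul B)).sub ((hasDerivAt_id H).mul (d q A B H).2)
  rw [a.unique b]
  simp only [id_eq]
  ring

theorem e_comm (q : P3) : dH (dA q) = dA (dH q) := by
  unfold dH dA
  rw [List.map_map, List.map_map]
  refine List.map_congr_left fun t _ => ?_
  simp only [Function.comp]
  rw [mul_right_comm]

theorem e_opD (h1 : EvaStmt) (q : P3) (A B H : ℝ) : e3 (opD q) A B H =
    2 * H * e3 (dA q) A B H + B * e3 (dH q) A B H - H * e3 q A B H := by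
  obtain ⟨ap, sc', m, d, -, -⟩ := h1
  unfold opD
  rw [ap, ap, sc', (m _ _ _ _).2.2, (m _ _ _ _).2.1, sc', (m _ _ _ _).2.2]
  push_cast
  ring

theorem stepY (h1 : EvaStmt) (h3 : JddStmt) (h4 : QddStmt) {n : ℕ} {y : V n} {f : V n → ℝ}
    {q : P3} (h : St n y f q) :
    St n y (fun x => ⟪x, y⟫ ^ 2 * f x) (sc (-1) (opD (opD q))) := by
  refine ⟨nice_in h.1 y, fun w => ?_⟩
  rw [step h3 h4 h y w, h1.2.1, e_opD h1, e_dA h1, e_dH h1, e_opD h1, e_comm]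
  unfold Q2
  rw [real_inner_self_eq_norm_sq]
  push_cast
  ring

theorem stepX (h1 : EvaStmt) (h3 : JddStmt) (h4 : QddStmt) {n : ℕ} {y : V n} {f : V n → ℝ}
    {q : P3} (h : St n y f q) :
    St n y (fun x => ‖x‖ ^ 2 * f x) (opA n q) := by
  refine ⟨nice_sq h.1, fun w => ?_⟩
  obtain ⟨b, hb⟩ : ∃ b : OrthonormalBasis (Fin n) ℝ (V n), b = EuclideanSpace.basisFun (Fin n) ℝ :=
    ⟨_, rfl⟩
  have hs : ∀ x z : V n, ∑ i, ⟪x, b i⟫ * ⟪z, b i⟫ = ⟪x, z⟫ := by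
    intro x z
    rw [← b.sum_inner_mul_inner x z]
    refine Finset.sum_congr rfl fun i _ => ?_
    rw [real_inner_comm z]
  have hx : ∀ x : V n, ‖x‖ ^ 2 = ∑ i, ⟪x, b i⟫ ^ 2 := by
    intro x
    rw [← real_inner_self_eq_norm_sq, ← hs x x]
    exact Finset.sum_congr rfl fun i _ => (sq _).symm
  have e1 : ∫ x, ‖x‖ ^ 2 * f x * G x * Real.cos ⟪x, w⟫ =
      ∑ i, ∫ x, ⟪x, b i⟫ ^ 2 * f x * G x * Real.cos ⟪x, w⟫ := by
    rw [← integral_finsetSum _ fun i _ => nice_int h3 (nice_in h.1 (b i)) w]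
    refine integral_congr_ae (Filter.Eventually.of_forall fun x => ?_)
    simp only
    rw [hx, Finset.sum_mul, Finset.sum_mul, Finset.sum_mul]
  rw [e1, Finset.sum_congr rfl fun i _ => step h3 h4 h (b i) w, Finset.sum_neg_distrib,
    ← Finset.mul_sum]
  have e2 : ∑ i, Q2 q y (b i) w = - (e3 (opA n q) (‖w‖ ^ 2) (‖y‖ ^ 2) ⟪w, y⟫ * G w) := by
    have hn : ∑ i, ‖b i‖ ^ 2 = (n : ℝ) := by
      rw [Finset.sum_congr rfl fun i _ => by rw [b.orthonormal.1 i, one_pow]]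
      simp
    have h11 := hx w
    have h12 := hs w y
    have h22 := hx y
    obtain ⟨ap, sc', m, d, -, -⟩ := h1
    unfold Q2
    rw [← Finset.sum_mul]
    have e3' : ∑ i, (4 * ⟪w, b i⟫ ^ 2 * e3 (dA (dA q)) (‖w‖ ^ 2) (‖y‖ ^ 2) ⟪w, y⟫ +
        4 * ⟪w, b i⟫ * ⟪y, b i⟫ * e3 (dA (dH q)) (‖w‖ ^ 2) (‖y‖ ^ 2) ⟪w, y⟫ +
        ⟪y, b i⟫ ^ 2 * e3 (dH (dH q)) (‖w‖ ^ 2) (‖y‖ ^ 2) ⟪w, y⟫ +
        2 * ‖b i‖ ^ 2 * e3 (dA q) (‖w‖ ^ 2) (‖y‖ ^ 2) ⟪w, y⟫ -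
        2 * ⟪w, b i⟫ * (2 * ⟪w, b i⟫ * e3 (dA q) (‖w‖ ^ 2) (‖y‖ ^ 2) ⟪w, y⟫ +
          ⟪y, b i⟫ * e3 (dH q) (‖w‖ ^ 2) (‖y‖ ^ 2) ⟪w, y⟫) +
        (⟪w, b i⟫ ^ 2 - ‖b i‖ ^ 2) * e3 q (‖w‖ ^ 2) (‖y‖ ^ 2) ⟪w, y⟫) =
        (∑ i, ⟪w, b i⟫ ^ 2) * (4 * e3 (dA (dA q)) (‖w‖ ^ 2) (‖y‖ ^ 2) ⟪w, y⟫ -
          4 * e3 (dA q) (‖w‖ ^ 2) (‖y‖ ^ 2) ⟪w, y⟫ + e3 q (‖w‖ ^ 2) (‖y‖ ^ 2) ⟪w, y⟫) +
        (∑ i, ⟪w, b i⟫ * ⟪y, b i⟫) * (4 * e3 (dA (dH q)) (‖w‖ ^ 2) (‖y‖ ^ 2) ⟪w, y⟫ -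
          2 * e3 (dH q) (‖w‖ ^ 2) (‖y‖ ^ 2) ⟪w, y⟫) +
        (∑ i, ⟪y, b i⟫ ^ 2) * e3 (dH (dH q)) (‖w‖ ^ 2) (‖y‖ ^ 2) ⟪w, y⟫ +
        (∑ i, ‖b i‖ ^ 2) * (2 * e3 (dA q) (‖w‖ ^ 2) (‖y‖ ^ 2) ⟪w, y⟫ -
          e3 q (‖w‖ ^ 2) (‖y‖ ^ 2) ⟪w, y⟫) := by
      rw [Finset.sum_mul, Finset.sum_mul, Finset.sum_mul, Finset.sum_mul, ← Finset.sum_add_distrib,
        ← Finset.sum_add_distrib, ← Finset.sum_add_distrib]
      refine Finset.sum_congr rfl fun i _ => ?_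
      ring
    rw [e3', ← h11, h12, ← h22, hn]
    unfold opA
    simp only [ap, sc', (m _ _ _ _).1, (m _ _ _ _).2.1, (m _ _ _ _).2.2]
    push_cast
    ring
  rw [e2]
  ring

theorem base {n : ℕ} (y : V n) : St n y (fun _ => 1) [(1, 0, 0, 0)] := by
  refine ⟨⟨continuous_const, 1, 0, fun x => by simp⟩, fun w => ?_⟩
  have hb : 0 < ((1 / 2 : ℝ) : ℂ).re := by
    rw [Complex.ofReal_re]
    positivity
  have h1 := GaussianFourier.integral_cexp_neg_mul_sq_norm_add_of_euclideanSpace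
    (ι := Fin n) hb Complex.I w
  have hint := GaussianFourier.integrable_cexp_neg_mul_sq_norm_add_of_euclideanSpace
    (ι := Fin n) hb Complex.I w
  have hre : ∀ v : V n, (Complex.exp (-((1 / 2 : ℝ) : ℂ) * (‖v‖ : ℂ) ^ 2 +
      Complex.I * ((⟪w, v⟫ : ℝ) : ℂ))).re = 1 * G v * Real.cos ⟪v, w⟫ := by
    intro v
    have h2 : -((1 / 2 : ℝ) : ℂ) * (‖v‖ : ℂ) ^ 2 + Complex.I * ((⟪w, v⟫ : ℝ) : ℂ) =
        ((-‖v‖ ^ 2 / 2 : ℝ) : ℂ) + ((⟪w, v⟫ : ℝ) : ℂ) * Complex.I := by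
      push_cast
      ring
    rw [h2, one_mul, real_inner_comm w v]
    unfold G
    generalize (-‖v‖ ^ 2 / 2 : ℝ) = u
    generalize (⟪v, w⟫ : ℝ) = z
    rw [Complex.exp_re]
    simp
  have hJ : ∫ v : V n, 1 * G v * Real.cos ⟪v, w⟫ =
      (∫ v : V n, Complex.exp (-((1 / 2 : ℝ) : ℂ) * (‖v‖ : ℂ) ^ 2 +
      Complex.I * ((⟪w, v⟫ : ℝ) : ℂ))).re := by
    rw [← Complex.reCLM_apply, ← ContinuousLinearMap.integral_comp_comm _ hint]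
    refine integral_congr_ae (Filter.Eventually.of_forall fun v => ?_)
    exact (hre v).symm
  rw [hJ, h1]
  have hpos : (0 : ℝ) ≤ 2 * Real.pi := by positivity
  have h3 : ((Real.pi : ℂ) / ((1 / 2 : ℝ) : ℂ)) ^ ((Fintype.card (Fin n) : ℂ) / 2) *
      Complex.exp (Complex.I ^ 2 * (‖w‖ : ℂ) ^ 2 / (4 * ((1 / 2 : ℝ) : ℂ))) =
      (((2 * Real.pi) ^ ((n : ℝ) / 2) * Real.exp (-‖w‖ ^ 2 / 2) : ℝ) : ℂ) := by
    rw [Complex.ofReal_mul, Complex.ofReal_cpow hpos, Complex.ofReal_exp, Fintype.card_fin]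
    congr 1
    · congr 1
      · push_cast
        field_simp
      · push_cast
        rfl
    · congr 1
      rw [Complex.I_sq]
      push_cast
      field_simp
      norm_num
  rw [h3, Complex.ofReal_re]
  unfold G
  simp [e3]

theorem ftm (h1 : EvaStmt) (_h2 : BddStmt) (h3 : JddStmt) (h4 : QddStmt) : FtmStmt := by
  intro n i j k y w
  have s1 : ∀ k : ℕ, St n y (fun x => ⟪x, y⟫ ^ (2 * k))
      ((fun q => sc (-1) (opD (opD q)))^[k] [(1, 0, 0, 0)]) := by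
    intro k
    induction k with
    | zero =>
      have := base y
      simpa using this
    | succ k ih =>
      rw [Function.iterate_succ_apply']
      have := stepY h1 h3 h4 ih
      have e : (fun x : V n => ⟪x, y⟫ ^ (2 * (k + 1))) =
          fun x : V n => ⟪x, y⟫ ^ 2 * ⟪x, y⟫ ^ (2 * k) := by
        funext x
        ring
      rw [e]
      exact this
  have s2 : ∀ i : ℕ, St n y (fun x => (‖x‖ ^ 2) ^ i * ⟪x, y⟫ ^ (2 * k))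
      ((opA n)^[i] ((fun q => sc (-1) (opD (opD q)))^[k] [(1, 0, 0, 0)])) := by
    intro i
    induction i with
    | zero =>
      have := s1 k
      simpa using this
    | succ i ih =>
      rw [Function.iterate_succ_apply']
      have := stepX h1 h3 h4 ih
      have e : (fun x : V n => (‖x‖ ^ 2) ^ (i + 1) * ⟪x, y⟫ ^ (2 * k)) =
          fun x : V n => ‖x‖ ^ 2 * ((‖x‖ ^ 2) ^ i * ⟪x, y⟫ ^ (2 * k)) := by
        funext x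
        ring
      rw [e]
      exact this
  have hB : ∀ (p : P3) (A B H : ℝ) (j : ℕ), e3 (mB^[j] p) A B H = B ^ j * e3 p A B H := by
    intro p A B H j
    induction j with
    | zero => simp
    | succ j ih =>
      rw [Function.iterate_succ_apply', (h1.2.2.1 _ _ _ _).2.1, ih]
      ring
  unfold tm
  rw [hB]
  have := (s2 i).2 w
  have e : ∫ x : V n, (‖x‖ ^ 2) ^ i * (‖y‖ ^ 2) ^ j * ⟪x, y⟫ ^ (2 * k) * G x * Real.cos ⟪x, w⟫ =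
      (‖y‖ ^ 2) ^ j * ∫ x : V n, (‖x‖ ^ 2) ^ i * ⟪x, y⟫ ^ (2 * k) * G x * Real.cos ⟪x, w⟫ := by
    rw [← integral_const_mul]
    refine integral_congr_ae (Filter.Eventually.of_forall fun x => ?_)
    simp only
    ring
  rw [e, this]
  ring

end Pool.Agent.LPK.H1
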